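import Mathlib
import Pool.Agent.H214R2.Orb

/-! Exact patterns of primes in the sequences `2^i (p - 1) + 1` (chains of the second kind). -/

open Finset Pool.Agent.H214R2.Orb Pool.Agent.H361R2 in
theorem Pool.Agent.Results.MP_9f2731_nt.ExactPatterns.result :
    (∀ m : ℕ, 1 ≤ m → ∃ K : ℕ, ∀ A : Finset ℕ, A.card = K → (∀ a ∈ A, 1 ≤ a) →
      ∃ S ⊆ A, m ≤ S.card ∧ ∀ M : ℕ,
        {n : ℕ | Odd n ∧ ∀ i ≤ M, ((2 ^ i * n + 1).Prime ↔ i ∈ S)}.Infinite) ∧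
    (∀ m : ℕ, 1 ≤ m → ∃ c : ℝ, 0 < c ∧ ∃ N₀ : ℕ, ∀ N : ℕ, N₀ ≤ N →
      c * (N : ℝ) ^ (m - 1) ≤ ({T : Finset ℕ | T ⊆ range N ∧ 0 ∈ T ∧ T.card = m ∧ ∀ M : ℕ,
        {p : ℕ | p.Prime ∧ ∀ i ≤ M, ((2 ^ i * (p - 1) + 1).Prime ↔ i ∈ T)}.Infinite}.ncard : ℝ)) ∧
    (∀ A : Finset ℕ, A.card = 2000 → ∃ a ∈ A, ∃ b ∈ A, a < b ∧ ∀ M : ℕ,
      {p : ℕ | p.Prime ∧ ∀ i ≤ M,
        ((2 ^ i * (p - 1) + 1).Prime ↔ i = 0 ∨ i = b - a)}.Infinite) := by
  have he : IsUnit (1 : ℤ) := isUnit_one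
  have hIP : ∀ (i n : ℕ), (IP ((2 : ℤ) ^ i * n + 1) ↔ (2 ^ i * n + 1).Prime) := by
    intro i n
    have h2 : (2 : ℤ) ^ i * n + 1 = ((2 ^ i * n + 1 : ℕ) : ℤ) := by
      push_cast; ring
    rw [h2]
    constructor
    · rintro ⟨p, hp, hpe⟩
      have : 2 ^ i * n + 1 = p := by exact_mod_cast hpe
      rw [this]; exact hp
    · intro h; exact ⟨_, h, rfl⟩
  have hGood : ∀ T : Finset ℕ, GoodT 1 T → ∀ M : ℕ,
      {p : ℕ | p.Prime ∧ ∀ i ≤ M, ((2 ^ i * (p - 1) + 1).Prime ↔ i ∈ T)}.Infinite := by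
    intro T hT M
    refine (hT M).mono ?_
    rintro p ⟨hp, h⟩
    refine ⟨hp, fun i hi => ?_⟩
    rw [← h i hi, ← hIP i (p - 1)]
    have : (2 : ℤ) ^ i * ((p : ℤ) - 1) + 1 = (2 : ℤ) ^ i * ((p - 1 : ℕ) : ℤ) + 1 := by
      rw [Nat.cast_sub hp.one_le]; push_cast; ring
    rw [this]
  refine ⟨?_, ?_, ?_⟩
  · intro m _
    obtain ⟨K, _, hK⟩ := mtz_exists m
    refine ⟨K, fun A hA hA1 => ?_⟩
    obtain ⟨S, hSA, hSc, hS⟩ := pattern hK he hA hA1
    refine ⟨S, hSA, hSc, fun M => (hS M).mono ?_⟩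
    rintro n ⟨h1, h2, h3⟩
    exact ⟨h1, fun i hi => by rw [← h3 i hi, hIP i n]⟩
  · intro m hm
    obtain ⟨K, hmK, hK⟩ := mtz_exists m
    obtain ⟨c, hc, N₀, h⟩ := proportion hK hmK he hm
    refine ⟨c, hc, N₀, fun N hN => (h N hN).trans ?_⟩
    rw [← Set.ncard_coe_finset]
    have hfin : {T : Finset ℕ | T ⊆ range N ∧ 0 ∈ T ∧ T.card = m ∧ ∀ M : ℕ,
        {p : ℕ | p.Prime ∧ ∀ i ≤ M,
          ((2 ^ i * (p - 1) + 1).Prime ↔ i ∈ T)}.Infinite}.Finite :=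
      (finite_toSet (range N).powerset).subset (fun T hT => by
        simp only [coe_powerset, Set.mem_preimage, Set.mem_powerset_iff, coe_subset]
        exact hT.1)
    have hle := Set.ncard_le_ncard (s := (goodSets 1 m N : Set (Finset ℕ))) (fun T hT => by
      simp only [goodSets, coe_filter, Set.mem_ofPred_eq, mem_powerset] at hT
      exact ⟨hT.1, hT.2.1, hT.2.2.1, hGood T hT.2.2.2⟩) hfin
    exact_mod_cast hle
  · intro A hA
    have hz : MTZ 2 2000 := mtz_two (bridge 2000 Pool.Agent.H410R2.maynardTao)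
    have hinj : Function.Injective (fun a : ℕ => a + 1) := fun a b h => by simpa using h
    obtain ⟨S, hSA, hSc, hS⟩ := pattern hz he (A := A.image (fun a => a + 1))
      (by rw [card_image_of_injective _ hinj, hA]) (by
        intro a ha
        rw [mem_image] at ha
        obtain ⟨b, _, rfl⟩ := ha
        omega)
    obtain ⟨t, ht, T, hT0, hTc, hTg, hTS⟩ := shift he hS (by norm_num) hSc
    obtain ⟨d, hd, hTd⟩ : ∃ d, 0 < d ∧ T = {0, d} := by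
      obtain ⟨x, y, hxy, rfl⟩ := card_eq_two.1 hTc
      rcases Nat.eq_zero_or_pos x with h | h
      · subst h
        exact ⟨y, by omega, rfl⟩
      · have : y = 0 := by
          simp only [mem_insert, mem_singleton] at hT0
          omega
        subst this
        exact ⟨x, h, pair_comm _ _⟩
    have h1 := hSA (hTS (mem_image_of_mem _ (by rw [hTd]; simp : 0 ∈ T)))
    have h2 := hSA (hTS (mem_image_of_mem _ (by rw [hTd]; simp : d ∈ T)))
    rw [mem_image] at h1 h2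
    obtain ⟨a, ha, ha2⟩ := h1
    obtain ⟨b, hb, hb2⟩ := h2
    refine ⟨a, ha, b, hb, by omega, fun M => (hGood T hTg M).mono ?_⟩
    rintro p ⟨hp, h⟩
    refine ⟨hp, fun i hi => ?_⟩
    rw [h i hi, hTd, mem_insert, mem_singleton]
    have : b - a = d := by omega
    rw [this]
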