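import Pool.Agent.H601R2.ClassChain

set_option autoImplicit false

open Finset

namespace Pool.Agent.Results.MP_9f2731_nt.ParityInClasses

/-- `c j n = 2 ^ j (n - 1) + 1`, the chain `n, 2 n - 1, 4 n - 3, ...` of the second kind. -/
def c (j n : ℕ) : ℕ := 2 ^ j * (n - 1) + 1

/-- **Almost prime chains of the second kind in residue classes, with prescribed parity.**
Let `k` be a length, `S` a set of an odd number of positions `j < k`, `ε > 0`, and let `b` be a positive integer for which the terms `c j b`, `j < k`, are coprime to `m`. There are `R` and `δ > 0`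
such that for all large `x` at least `x ^ (1 - ε)` positive integers `n ≤ x` with `n ≡ b` modulo `m`
satisfy: the terms `c 0 n, ..., c (k-1) n` are products of at most `R` primes, all larger than
`x ^ δ`, and the product of the `c j n` with `j ∈ S` has an odd number of prime factors (counted with
multiplicity); and the same holds with even in place of odd. -/
theorem result (k : ℕ) (S : Finset ℕ) (hS : S ⊆ range k) (hodd : Odd S.card) (m b : ℕ) (hm : 0 < m)
    (hb0 : 0 < b) (hb : ∀ j < k, Nat.Coprime (c j b) m) (ε : ℝ) (hε : 0 < ε) :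
    ∃ (R : ℕ) (δ : ℝ), 0 < δ ∧ ∃ x₀ : ℝ, ∀ x : ℝ, x₀ ≤ x →
    x ^ (1 - ε) ≤ ({n : ℕ | 0 < n ∧ (n : ℝ) ≤ x ∧ n ≡ b [MOD m] ∧
      (∀ j < k, ArithmeticFunction.cardFactors (c j n) ≤ R ∧
        ∀ p : ℕ, p.Prime → p ∣ c j n → x ^ δ < p) ∧
      Odd (∑ j ∈ S, ArithmeticFunction.cardFactors (c j n))}.ncard : ℝ) ∧
    x ^ (1 - ε) ≤ ({n : ℕ | 0 < n ∧ (n : ℝ) ≤ x ∧ n ≡ b [MOD m] ∧
      (∀ j < k, ArithmeticFunction.cardFactors (c j n) ≤ R ∧
        ∀ p : ℕ, p.Prime → p ∣ c j n → x ^ δ < p) ∧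
      Even (∑ j ∈ S, ArithmeticFunction.cardFactors (c j n))}.ncard : ℝ) := by
  have hc : ∀ j n : ℕ, 0 < n → Pool.Agent.H601R2.ExactChain.C (-1) j n = ((c j n : ℕ) : ℤ) := by
    intro j n hn
    unfold Pool.Agent.H601R2.ExactChain.C c
    push_cast [Nat.cast_sub (Nat.succ_le_of_lt hn)]
    ring
  obtain ⟨R, δ, hδ, x₀, h⟩ := Pool.Agent.H601R2.ClassChain.core (-1) (Or.inr rfl) k S hS hodd m b hm
    (fun j hj => by
      have h1 := hb j hj
      rw [hc j b hb0]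
      exact Nat.isCoprime_iff_coprime.2 h1) ε hε
  refine ⟨R, δ, hδ, x₀, fun x hx => ?_⟩
  have hfin : ∀ P : ℕ → Prop, {n : ℕ | 0 < n ∧ (n : ℝ) ≤ x ∧ P n}.Finite := fun P =>
    (Set.finite_Iic ⌊x⌋₊).subset fun n hn => Nat.le_floor hn.2.1
  have hgood : ∀ n : ℕ, 0 < n → Pool.Agent.H601R2.ClassChain.Good (-1) k R m b (x ^ δ) n →
      n ≡ b [MOD m] ∧ (∀ j < k, ArithmeticFunction.cardFactors (c j n) ≤ R ∧
        ∀ p : ℕ, p.Prime → p ∣ c j n → x ^ δ < p) := by
    rintro n hn ⟨h1, h2⟩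
    refine ⟨h2, fun j hj => ?_⟩
    obtain ⟨-, h5, h6⟩ := h1 j hj
    rw [hc j n hn] at h5 h6
    rw [Int.natAbs_natCast] at h5
    exact ⟨h5, fun p hp hpd => h6 p hp (Int.natCast_dvd_natCast.2 hpd)⟩
  obtain ⟨k1, k2⟩ := h x hx
  constructor
  · refine k1.trans (Nat.cast_le.2 (Set.ncard_le_ncard ?_ (hfin _)))
    rintro n ⟨h1, h2, h3, h4⟩
    have h5 := hgood n h1 h3
    simp only [hc _ n h1, Int.natAbs_natCast] at h4
    exact ⟨h1, h2, h5.1, h5.2, h4⟩
  · refine k2.trans (Nat.cast_le.2 (Set.ncard_le_ncard ?_ (hfin _)))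
    rintro n ⟨h1, h2, h3, h4⟩
    have h5 := hgood n h1 h3
    simp only [hc _ n h1, Int.natAbs_natCast] at h4
    exact ⟨h1, h2, h5.1, h5.2, h4⟩

end Pool.Agent.Results.MP_9f2731_nt.ParityInClasses
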